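import Pool.Agent.W95.EQ.Stm
import Pool.Agent.W293.BK.Nwlim
import Pool.Agent.W918.BKM.Mix

set_option autoImplicit false
set_option linter.unusedSectionVars false

open Polynomial Topology Filter MeasureTheory
open scoped ENNReal

namespace Pool.Agent.W382.EQM

universe u

/-! ### normalised positive functionals given by finite sums -/

section fn
variable {X : Type*} [MeasurableSpace X]

def Fn (Λ : ℕ → (X → ℝ) → ℝ) : Prop := ∀ n, ∃ (S : Finset X) (w : X → ℝ), (∀ y, 0 ≤ w y) ∧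
  ∑ y ∈ S, w y = 1 ∧ ∀ φ, Λ n φ = ∑ y ∈ S, w y * φ y

variable {Λ : ℕ → (X → ℝ) → ℝ}

theorem Fn.add (h : Fn Λ) (n : ℕ) (v w : X → ℝ) : Λ n (fun x => v x + w x) = Λ n v + Λ n w := by
  obtain ⟨S, c, _, _, hc⟩ := h n
  rw [hc, hc, hc, ← Finset.sum_add_distrib]
  exact Finset.sum_congr rfl fun y _ => by ring

theorem Fn.smul (h : Fn Λ) (n : ℕ) (a : ℝ) (v : X → ℝ) : Λ n (fun x => a * v x) = a * Λ n v := by
  obtain ⟨S, c, _, _, hc⟩ := h n
  rw [hc, hc, Finset.mul_sum]
  exact Finset.sum_congr rfl fun y _ => by ring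

theorem Fn.const (h : Fn Λ) (n : ℕ) (a : ℝ) : Λ n (fun _ => a) = a := by
  obtain ⟨S, c, _, h1, hc⟩ := h n
  rw [hc, ← Finset.sum_mul, h1, one_mul]

theorem Fn.mono (h : Fn Λ) (n : ℕ) {v w : X → ℝ} (hvw : ∀ x, v x ≤ w x) : Λ n v ≤ Λ n w := by
  obtain ⟨S, c, h0, _, hc⟩ := h n
  rw [hc, hc]
  exact Finset.sum_le_sum fun y _ => mul_le_mul_of_nonneg_left (hvw y) (h0 y)

def Gd (Λ : ℕ → (X → ℝ) → ℝ) (ρ : Measure X) (v : X → ℝ) : Prop :=
  Integrable v ρ ∧ Tendsto (fun n => Λ n v) atTop (𝓝 (∫ x, v x ∂ρ))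

variable {ρ : Measure X}

theorem Gd.add (h : Fn Λ) {v w : X → ℝ} (hv : Gd Λ ρ v) (hw : Gd Λ ρ w) :
    Gd Λ ρ (fun x => v x + w x) := by
  refine ⟨hv.1.add hw.1, ?_⟩
  rw [integral_add hv.1 hw.1]
  refine (hv.2.add hw.2).congr fun n => ?_
  rw [h.add]

theorem Gd.smul (h : Fn Λ) {v : X → ℝ} (hv : Gd Λ ρ v) (a : ℝ) : Gd Λ ρ (fun x => a * v x) := by
  refine ⟨hv.1.const_mul a, ?_⟩
  rw [integral_const_mul]
  refine (hv.2.const_mul a).congr fun n => ?_
  rw [h.smul]

theorem Gd.const [IsProbabilityMeasure ρ] (h : Fn Λ) (a : ℝ) : Gd Λ ρ (fun _ => a) := by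
  refine ⟨integrable_const a, ?_⟩
  simp only [h.const, integral_const, probReal_univ, smul_eq_mul, one_mul]
  exact tendsto_const_nhds

theorem Gd.sum [IsProbabilityMeasure ρ] {ι : Type*} (h : Fn Λ) (s : Finset ι) (v : ι → X → ℝ)
    (hv : ∀ i ∈ s, Gd Λ ρ (v i)) : Gd Λ ρ (fun x => ∑ i ∈ s, v i x) := by
  classical
  induction s using Finset.induction_on with
  | empty => simpa using Gd.const (ρ := ρ) h 0
  | insert i s hi ih =>
    have h1 := hv i (Finset.mem_insert_self i s)
    have h2 := ih fun k hk => hv k (Finset.mem_insert_of_mem hk)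
    have h3 := Gd.add h h1 h2
    have e : (fun x => ∑ k ∈ insert i s, v k x) = fun x => v i x + ∑ k ∈ s, v k x := by
      funext x
      rw [Finset.sum_insert hi]
    rw [e]
    exact h3

theorem Gd.squeeze (hF : Fn Λ) {v : X → ℝ} (hv : Integrable v ρ)
    (h : ∀ η : ℝ, 0 < η → ∃ l u : X → ℝ, Gd Λ ρ l ∧ Gd Λ ρ u ∧ (∀ x, l x ≤ v x) ∧
      (∀ x, v x ≤ u x) ∧ ∫ x, u x ∂ρ - ∫ x, l x ∂ρ ≤ η) : Gd Λ ρ v := by
  refine ⟨hv, ?_⟩
  rw [Metric.tendsto_nhds]
  intro ε hε
  obtain ⟨l, u, hl, hu, hlv, hvu, hd⟩ := h (ε / 2) (by linarith)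
  have e1 : ∀ᶠ n in atTop, ∫ x, l x ∂ρ - ε / 2 < Λ n l :=
    hl.2.eventually (eventually_gt_nhds (by linarith))
  have e2 : ∀ᶠ n in atTop, Λ n u < ∫ x, u x ∂ρ + ε / 2 :=
    hu.2.eventually (eventually_lt_nhds (by linarith))
  have i1 : ∫ x, l x ∂ρ ≤ ∫ x, v x ∂ρ := integral_mono hl.1 hv hlv
  have i2 : ∫ x, v x ∂ρ ≤ ∫ x, u x ∂ρ := integral_mono hv hu.1 hvu
  filter_upwards [e1, e2] with n h1 h2
  have m1 := hF.mono n hlv
  have m2 := hF.mono n hvu
  rw [Real.dist_eq, abs_lt]
  constructor <;> linarith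

end fn

open Pool.Agent.W95.BK Pool.Agent.W95.EQ
open Pool.Agent.W293.BK (mem_ball_coe infty_not_mem_ball lam_nonneg ker_bd)
open Pool.Agent.W918.BKM (meas_ball int_ind cont_int)

section
variable {K : Type u} [NontriviallyNormedField K] [IsUltrametricDist K] [IsAlgClosed K]

/-- the normalised pull-backs of a point -/
noncomputable def La (R : RMap K) (x : P1B K) (n : ℕ) (φ : P1B K → ℝ) : ℝ :=
  pushFun (R.iter n) φ x / (R.d : ℝ) ^ n

theorem La_fn (hPF : S_PF.{u}) (hIT : S_ITER.{u}) (R : RMap K) (hR : 2 ≤ R.d) (x : P1B K) :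
    Fn (La R x) := by
  intro n
  obtain ⟨hfin, hone, _⟩ := hPF K (R.iter n)
  have hd : (0 : ℝ) < (R.d : ℝ) ^ n := by
    have : 0 < R.d := by omega
    positivity
  refine ⟨(hfin x).toFinset, fun y => (localDeg (R.iter n) y : ℝ) / (R.d : ℝ) ^ n,
    fun y => by positivity, ?_, ?_⟩
  · have h1 := hone x
    unfold Pool.Agent.W95.BK.pushFun at h1
    rw [finsum_mem_eq_finite_toFinset_sum _ (hfin x)] at h1
    simp only [mul_one] at h1
    rw [← Finset.sum_div, h1, (hIT K R).1 n]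
    push_cast
    exact div_self hd.ne'
  · intro φ
    unfold La Pool.Agent.W95.BK.pushFun
    rw [finsum_mem_eq_finite_toFinset_sum _ (hfin x), Finset.sum_div]
    exact Finset.sum_congr rfl fun y _ => by ring

/-- continuity of the measure at a good radius -/
theorem cont_in {ρ : Measure (P1B K)} [IsProbabilityMeasure ρ] (a : K) {r : ℝ} (hr : 0 < r) :
    Tendsto (fun k : ℕ => ρ.real (ball a (r - r / ((k : ℝ) + 2)))) atTop
      (𝓝 (ρ.real (ball a r))) := by
  have hmono : Monotone (fun k : ℕ => ball a (r - r / ((k : ℝ) + 2))) := by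
    intro k l hkl x hx
    obtain ⟨y, hy, h1⟩ := hx
    refine ⟨y, hy, lt_of_lt_of_le h1 ?_⟩
    have : r / ((l : ℝ) + 2) ≤ r / ((k : ℝ) + 2) := by
      apply div_le_div_of_nonneg_left hr.le (by positivity)
      have : (k : ℝ) ≤ l := by exact_mod_cast hkl
      linarith
    linarith
  have h1 := tendsto_measure_iUnion_atTop (μ := ρ)
    (s := fun k : ℕ => ball a (r - r / ((k : ℝ) + 2))) hmono
  have e : (⋃ k : ℕ, ball a (r - r / ((k : ℝ) + 2))) = ball a r := by
    ext x
    rw [Set.mem_iUnion]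
    constructor
    · rintro ⟨k, y, hy, h2⟩
      refine ⟨y, hy, h2.trans ?_⟩
      have : (0 : ℝ) < r / ((k : ℝ) + 2) := by positivity
      linarith
    · rintro ⟨y, hy, h2⟩
      obtain ⟨k, hk⟩ := exists_nat_gt (r / (r - lam y a))
      refine ⟨k, y, hy, ?_⟩
      have h3 : 0 < r - lam y a := by linarith
      have h4 : r / ((k : ℝ) + 2) < r - lam y a := by
        rw [div_lt_iff₀ (by positivity)]
        rw [div_lt_iff₀ h3] at hk
        nlinarith
      linarith
  rw [e] at h1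
  exact (ENNReal.tendsto_toReal (measure_ne_top ρ _)).comp h1

theorem cont_out (hNB : S_NB.{u}) {ρ : Measure (P1B K)} [IsProbabilityMeasure ρ] (a : K) {r : ℝ}
    (hg : good ρ a r) :
    Tendsto (fun k : ℕ => ρ.real (ball a (r + 1 / ((k : ℝ) + 1)))) atTop
      (𝓝 (ρ.real (ball a r))) := by
  obtain ⟨hr, hsph⟩ := hg
  have hanti : Antitone (fun k : ℕ => ball a (r + 1 / ((k : ℝ) + 1))) := by
    intro k l hkl x hx
    obtain ⟨y, hy, h1⟩ := hx
    refine ⟨y, hy, lt_of_lt_of_le h1 ?_⟩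
    have : 1 / ((l : ℝ) + 1) ≤ 1 / ((k : ℝ) + 1) := by
      apply one_div_le_one_div_of_le (by positivity)
      have : (k : ℝ) ≤ l := by exact_mod_cast hkl
      linarith
    linarith
  have h1 := tendsto_measure_iInter_atTop (μ := ρ)
    (s := fun k : ℕ => ball a (r + 1 / ((k : ℝ) + 1)))
    (fun k => (meas_ball hNB a _).nullMeasurableSet) hanti ⟨0, measure_ne_top _ _⟩
  have e : ρ (⋂ k : ℕ, ball a (r + 1 / ((k : ℝ) + 1))) = ρ (ball a r) := by
    refine le_antisymm ?_ ?_
    · have hsub : (⋂ k : ℕ, ball a (r + 1 / ((k : ℝ) + 1))) ⊆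
          ball a r ∪ {x : P1B K | ∃ y : BA K, x = (y : P1B K) ∧ lam y a = r} := by
        intro x hx
        rw [Set.mem_iInter] at hx
        obtain ⟨y, hy, _⟩ := hx 0
        subst hy
        have h2 : lam y a ≤ r := by
          refine le_of_forall_pos_lt_add fun ε hε => ?_
          obtain ⟨k, hk⟩ := exists_nat_one_div_lt hε
          have h3 := (mem_ball_coe _ _ _).mp (hx k)
          linarith
        rcases lt_or_eq_of_le h2 with h3 | h3
        · exact Or.inl ((mem_ball_coe _ _ _).mpr h3)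
        · exact Or.inr ⟨y, rfl, h3⟩
      refine (measure_mono hsub).trans ((measure_union_le _ _).trans ?_)
      rw [hsph, add_zero]
    · refine measure_mono ?_
      refine Set.subset_iInter fun k => ?_
      rintro x ⟨y, hy, h2⟩
      refine ⟨y, hy, h2.trans ?_⟩
      have : (0 : ℝ) < 1 / ((k : ℝ) + 1) := by positivity
      linarith
  rw [e] at h1
  exact (ENNReal.tendsto_toReal (measure_ne_top ρ _)).comp h1

/-- indicators of good discs -/
theorem gd_ball (hNB : S_NB.{u}) {ρ : Measure (P1B K)} [IsProbabilityMeasure ρ]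
    {Λ : ℕ → (P1B K → ℝ) → ℝ} (hF : Fn Λ)
    (hk : ∀ (a : K) (s t : ℝ), 0 < s → 0 < t → Gd Λ ρ (ker a s t)) (a : K) {r : ℝ}
    (hg : good ρ a r) : Gd Λ ρ (Set.indicator (ball a r) (fun _ => (1 : ℝ))) := by
  have hr := hg.1
  refine Gd.squeeze hF (int_ind hNB a r) fun η hη => ?_
  obtain ⟨k, hk1⟩ := ((cont_in (ρ := ρ) a hr).eventually
    (eventually_gt_nhds (show ρ.real (ball a r) - η / 2 < ρ.real (ball a r) by linarith))).exists
  obtain ⟨m, hm1⟩ := ((cont_out hNB a hg).eventually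
    (eventually_lt_nhds (show ρ.real (ball a r) < ρ.real (ball a r) + η / 2 by linarith))).exists
  set s := r - r / ((k : ℝ) + 2) with hs
  set t := r + 1 / ((m : ℝ) + 1) with ht
  have hs0 : 0 < s := by
    have : r / ((k : ℝ) + 2) < r := by
      rw [div_lt_iff₀ (by positivity)]
      nlinarith [(Nat.cast_nonneg k : (0 : ℝ) ≤ k)]
    linarith
  have hsr : s < r := by
    have : (0 : ℝ) < r / ((k : ℝ) + 2) := by positivity
    linarith
  have hrt : r < t := by
    have : (0 : ℝ) < 1 / ((m : ℝ) + 1) := by positivity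
    linarith
  have ht0 : 0 < t := hr.trans hrt
  have hL1 : 0 < Real.log (r / s) := Real.log_pos (by rwa [one_lt_div hs0])
  have hL2 : 0 < Real.log (t / r) := Real.log_pos (by rwa [one_lt_div hr])
  refine ⟨fun x => (Real.log (r / s))⁻¹ * ker a s r x, fun x => (Real.log (t / r))⁻¹ * ker a r t x,
    Gd.smul hF (hk a s r hs0 hr) _, Gd.smul hF (hk a r t hr ht0) _, ?_, ?_, ?_⟩
  · intro x
    have h := (ker_bd a s r hs0 hsr x).2.1
    by_cases hx : x ∈ ball a r
    · rw [Set.indicator_of_mem hx] at h ⊢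
      rw [inv_mul_le_iff₀ hL1, mul_one]
      exact h
    · rw [Set.indicator_of_notMem hx] at h ⊢
      exact mul_nonpos_of_nonneg_of_nonpos (inv_nonneg.2 hL1.le) h
  · intro x
    have h := (ker_bd a r t hr hrt x).2.2
    have h0 := (ker_bd a r t hr hrt x).1
    by_cases hx : x ∈ ball a r
    · rw [Set.indicator_of_mem hx] at h ⊢
      change 1 ≤ (Real.log (t / r))⁻¹ * ker a r t x
      rw [← div_eq_inv_mul, le_div_iff₀ hL2, one_mul]
      exact h
    · rw [Set.indicator_of_notMem hx]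
      exact mul_nonneg (inv_nonneg.2 hL2.le) h0
  · rw [integral_const_mul, integral_const_mul]
    have i1 : Real.log (r / s) * ρ.real (ball a s) ≤ ∫ x, ker a s r x ∂ρ := by
      have h1 : ∫ x, Set.indicator (ball a s) (fun _ => Real.log (r / s)) x ∂ρ ≤
          ∫ x, ker a s r x ∂ρ := by
        refine integral_mono ((integrable_const _).indicator (meas_ball hNB a s))
          (hk a s r hs0 hr).1 ?_
        exact fun x => (ker_bd a s r hs0 hsr x).2.2
      rwa [integral_indicator_const _ (meas_ball hNB a s), smul_eq_mul, mul_comm] at h1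
    have i2 : ∫ x, ker a r t x ∂ρ ≤ Real.log (t / r) * ρ.real (ball a t) := by
      have h1 : ∫ x, ker a r t x ∂ρ ≤
          ∫ x, Set.indicator (ball a t) (fun _ => Real.log (t / r)) x ∂ρ := by
        refine integral_mono (hk a r t hr ht0).1
          ((integrable_const _).indicator (meas_ball hNB a t)) ?_
        exact fun x => (ker_bd a r t hr hrt x).2.1
      rwa [integral_indicator_const _ (meas_ball hNB a t), smul_eq_mul, mul_comm] at h1
    have j1 : ρ.real (ball a s) ≤ (Real.log (r / s))⁻¹ * ∫ x, ker a s r x ∂ρ := by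
      rw [← div_eq_inv_mul, le_div_iff₀ hL1, mul_comm]
      exact i1
    have j2 : (Real.log (t / r))⁻¹ * ∫ x, ker a r t x ∂ρ ≤ ρ.real (ball a t) := by
      rw [inv_mul_le_iff₀ hL2]
      exact i2
    linarith

end

theorem main : S_KLIM.{u} → S_PF.{u} → S_ITER.{u} → S_TL.{u} → S_REP.{u} → S_GOOD.{u} →
    S_KERC.{u} → S_NB.{u} → S_EQW.{u} := by
  classical
  intro hKL hPF hIT hTL hrep hG hKC hNB K _ _ _ _ R hR ρ hρ hker x hx φ
  have hF : Fn (La R (x : P1B K)) := La_fn hPF hIT R hR x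
  have hk : ∀ (a : K) (s t : ℝ), 0 < s → 0 < t → Gd (La R (x : P1B K)) ρ (ker a s t) := by
    intro a s t hs ht
    refine ⟨cont_int (hKC K a s t hs ht), ?_⟩
    rw [hker a s t hs ht]
    exact hKL K R hR x hx a s t hs ht
  have key : Gd (La R (x : P1B K)) ρ (fun y => φ y) := by
    refine Gd.squeeze hF (cont_int φ.continuous) fun η hη => ?_
    obtain ⟨F, hF1, hF2, hF3⟩ := hTL K (good ρ) (fun a s t hs hst => hG K ρ hρ a s t hs hst) φ
      (η / 2) (by linarith)
    set σ : P1B K → Finset (K × ℝ) := fun x => F.filter (fun p => x ∈ ball p.1 p.2) with hσ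
    have hσ' : ∀ x y, σ x = σ y ↔ ∀ p ∈ F, x ∈ ball p.1 p.2 ↔ y ∈ ball p.1 p.2 := by
      intro x y
      constructor
      · intro h p hp
        have := congrArg (fun S => p ∈ S) h
        simp only [hσ, Finset.mem_filter, hp, true_and] at this
        exact Iff.of_eq this
      · intro h
        exact Finset.filter_congr h
    set v : P1B K → ℝ := fun x =>
      φ (Classical.choose (⟨x, rfl⟩ : ∃ y, σ y = σ x)) with hv
    have hvσ : ∀ x, σ (Classical.choose (⟨x, rfl⟩ : ∃ y, σ y = σ x)) = σ x := fun x =>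
      Classical.choose_spec (⟨x, rfl⟩ : ∃ y, σ y = σ x)
    have hv1 : ∀ x, |φ x - v x| ≤ η / 2 := by
      intro x
      refine hF3 x _ ?_
      exact (hσ' _ _).1 (hvσ x).symm
    have hv2 : ∀ x y, σ x = σ y → v x = v y := by
      intro x y hxy
      simp only [hv]
      congr 2
      rw [hxy]
    obtain ⟨c₀, c, hc⟩ := hrep K F (fun p hp => (hF1 p hp).1) hF2 v
      (fun x y h => hv2 x y ((hσ' x y).2 h))
    have hgd : Gd (La R (x : P1B K)) ρ
        (fun x => c₀ + ∑ p ∈ F, c p * Set.indicator (ball p.1 p.2) (fun _ => (1 : ℝ)) x) := by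
      refine Gd.add hF (Gd.const hF c₀) ?_
      refine Gd.sum hF F _ fun p hp => ?_
      exact Gd.smul hF (gd_ball hNB hF hk p.1 (hF1 p hp).2) (c p)
    have hveq : v = fun x => c₀ + ∑ p ∈ F, c p * Set.indicator (ball p.1 p.2) (fun _ => (1 : ℝ)) x := by
      funext x
      rw [hc x]
      congr 1
      refine Finset.sum_congr rfl fun p _ => ?_
      by_cases hx : x ∈ ball p.1 p.2
      · rw [if_pos hx, Set.indicator_of_mem hx, mul_one]
      · rw [if_neg hx, Set.indicator_of_notMem hx, mul_zero]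
    rw [← hveq] at hgd
    refine ⟨fun y => v y + (-(η / 2)), fun y => v y + η / 2, Gd.add hF hgd (Gd.const hF _),
      Gd.add hF hgd (Gd.const hF _), ?_, ?_, ?_⟩
    · intro y
      have := (abs_le.1 (hv1 y)).1
      simp only
      linarith
    · intro y
      have := (abs_le.1 (hv1 y)).2
      simp only
      linarith
    · rw [integral_add hgd.1 (integrable_const _), integral_add hgd.1 (integrable_const _)]
      simp only [integral_const, probReal_univ, smul_eq_mul, one_mul]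
      linarith
  exact key.2

end Pool.Agent.W382.EQM
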